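import Pool.Agent.N623.CS.Stm

/-!
# Project CS (helper623): EMB, the embedding

By helper711.
-/

set_option autoImplicit false

namespace Pool.Agent.N711.CS

open Pool.Agent.N623.CS

/-! ### Rigid surjections with a given counting function -/

/-- the new letters are taken where `u` increases, all other letters are `0` -/
def gg (u : ℕ → ℕ) (n : ℕ) : ℕ := if u (n + 1) = u n + 1 then u n else 0

/-- counting functions -/
structure Stp (u : ℕ → ℕ) : Prop where
  zero : u 0 = 0
  one : u 1 = 1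
  step : ∀ n, u (n + 1) = u n ∨ u (n + 1) = u n + 1
  unb : ∀ v, ∃ n, v ≤ u n

variable {u : ℕ → ℕ}

theorem Stp.mono (h : Stp u) : Monotone u :=
  monotone_nat_of_le_succ fun n => by rcases h.step n with h | h <;> omega

theorem Stp.find (h : Stp u) : ∀ n v, v < u n → ∃ i, i < n ∧ u i = v ∧ u (i + 1) = v + 1 := by
  intro n
  induction n with
  | zero =>
    intro v hv
    rw [h.zero] at hv
    omega
  | succ n ih =>
    intro v hv
    by_cases h1 : v < u n
    · obtain ⟨i, hi, h2⟩ := ih v h1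
      exact ⟨i, by omega, h2⟩
    · rcases h.step n with h2 | h2
      · omega
      · exact ⟨n, by omega, by omega, by omega⟩

theorem Stp.gg_find (h : Stp u) {n v : ℕ} (hv : v < u n) : ∃ i, i < n ∧ gg u i = v := by
  obtain ⟨i, hi, h1, h2⟩ := h.find n v hv
  refine ⟨i, hi, ?_⟩
  unfold gg
  rw [if_pos (by omega), h1]

theorem Stp.isRS (h : Stp u) : IsRS (gg u) := by
  constructor
  · intro m v hv
    have h1 : v < u m := by
      unfold gg at hv
      split_ifs at hv
      · exact hv
      · omega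
    exact h.gg_find h1
  · intro v
    obtain ⟨n, hn⟩ := h.unb (v + 1)
    obtain ⟨i, -, hi⟩ := h.gg_find (n := n) (v := v) (by omega)
    exact ⟨i, hi⟩

theorem Stp.new_iff (h : Stp u) (m : ℕ) : (∀ j, j < m → gg u j ≠ gg u m) ↔ u (m + 1) = u m + 1 := by
  have h0 : gg u 0 = 0 := by
    unfold gg
    rw [if_pos (by rw [zero_add, h.one, h.zero]), h.zero]
  constructor
  · intro h1
    by_contra hcon
    have h2 : gg u m = 0 := by
      unfold gg
      rw [if_neg hcon]
    rcases Nat.eq_zero_or_pos m with h3 | h3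
    · apply hcon
      rw [h3, zero_add, h.one, h.zero]
    · exact h1 0 h3 (by rw [h0, h2])
  · intro h1 j hj
    have h2 : gg u m = u m := by
      unfold gg
      rw [if_pos h1]
    rw [h2]
    unfold gg
    split_ifs with h3
    · have h4 : u (j + 1) ≤ u m := h.mono (by omega)
      omega
    · have h4 : u 1 ≤ u m := h.mono (by omega)
      rw [h.one] at h4
      omega

theorem Stp.cnt_eq (h : Stp u) (n : ℕ) : cnt (gg u) n = u n := by
  induction n with
  | zero =>
    unfold cnt
    rw [h.zero]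
    simp
  | succ n ih =>
    unfold cnt at ih ⊢
    rw [Finset.range_add_one, Finset.filter_insert]
    split_ifs with h1
    · rw [Finset.card_insert_of_notMem (by simp), ih, ((h.new_iff n).1 h1)]
    · rw [ih]
      have h2 : ¬ u (n + 1) = u n + 1 := fun h3 => h1 ((h.new_iff n).2 h3)
      rcases h.step n with h3 | h3
      · exact h3.symm
      · exact absurd h3 h2

/-! ### The saw -/

/-- the saw -/
def rho (n : ℕ) : ℕ := min (n - Nat.sqrt n * Nat.sqrt n) ((Nat.sqrt n + 1) * (Nat.sqrt n + 1) - n)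

/-- the perturbation -/
def phi (a : ℕ → ℤ) (n : ℕ) : ℤ := clamp (rho n) (a (Nat.sqrt n))

theorem sq_succ (s : ℕ) : (s + 1) * (s + 1) = s * s + 2 * s + 1 := by ring

theorem rho_le (n : ℕ) : rho n ≤ Nat.sqrt n := by
  have h1 := Nat.sqrt_le n
  have h2 := Nat.lt_succ_sqrt n
  rw [Nat.succ_eq_add_one, sq_succ] at h2
  unfold rho
  rw [sq_succ]
  generalize Nat.sqrt n * Nat.sqrt n = q at *
  omega

theorem clamp_bd (k : ℕ) (x : ℤ) : -(k : ℤ) ≤ clamp k x ∧ clamp k x ≤ k := by
  unfold clamp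
  omega

theorem phi_bd (a : ℕ → ℤ) (n : ℕ) : -(n : ℤ) ≤ phi a n ∧ phi a n ≤ n := by
  have h1 := clamp_bd (rho n) (a (Nat.sqrt n))
  have h2 := rho_le n
  have h3 := Nat.sqrt_le_self n
  unfold phi
  omega

theorem phi_step (a : ℕ → ℤ) (n : ℕ) : phi a (n + 1) ≤ phi a n + 1 ∧ phi a n ≤ phi a (n + 1) + 1 := by
  obtain ⟨s, hs⟩ : ∃ s, s = Nat.sqrt n := ⟨_, rfl⟩
  have h1 : s * s ≤ n := by rw [hs]; exact Nat.sqrt_le n
  have h2 : n < (s + 1) * (s + 1) := by rw [hs]; exact Nat.lt_succ_sqrt n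
  by_cases h3 : n + 1 < (s + 1) * (s + 1)
  · have h4 : s = Nat.sqrt (n + 1) := Nat.eq_sqrt.2 ⟨by omega, h3⟩
    unfold phi rho
    rw [← h4, ← hs]
    rw [sq_succ] at h2 h3 ⊢
    generalize s * s = q at *
    unfold clamp
    omega
  · have h5 : n + 1 = (s + 1) * (s + 1) := by omega
    have h4 : s + 1 = Nat.sqrt (n + 1) := Nat.eq_sqrt.2 ⟨by omega, by
      rw [h5]
      exact Nat.mul_self_lt_mul_self (by omega)⟩
    unfold phi rho
    rw [← h4, ← hs, ← h5]
    unfold clamp
    omega

/-- the number of new letters -/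
def cc (a : ℕ → ℤ) (n : ℕ) : ℕ := (((n : ℤ) + phi a n) / 2).toNat

theorem cc_bd (a : ℕ → ℤ) (n : ℕ) :
    2 * (cc a n : ℤ) ≤ n + phi a n ∧ (n : ℤ) + phi a n ≤ 2 * cc a n + 1 := by
  have h1 := phi_bd a n
  unfold cc
  omega

/-- shifted -/
def cd (d : ℕ) (a : ℕ → ℤ) (n : ℕ) : ℕ := if n ≤ d then n else d + cc a (n - d)

theorem cc_zero (a : ℕ → ℤ) : cc a 0 = 0 := by
  have h1 := phi_bd a 0
  have h2 := cc_bd a 0
  omega

theorem cd_add (d : ℕ) (a : ℕ → ℤ) (n : ℕ) : cd d a (d + n) = d + cc a n := by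
  unfold cd
  split_ifs with h
  · have : n = 0 := by omega
    subst this
    rw [cc_zero]
  · rw [Nat.add_sub_cancel_left]

theorem cd_lt {d n : ℕ} (a : ℕ → ℤ) (h : n ≤ d) : cd d a n = n := by
  unfold cd
  rw [if_pos h]

theorem cc_step (a : ℕ → ℤ) (n : ℕ) : cc a (n + 1) = cc a n ∨ cc a (n + 1) = cc a n + 1 := by
  have h1 := cc_bd a n
  have h2 := cc_bd a (n + 1)
  have h3 := phi_step a n
  push_cast at h2
  omega

theorem phi_sq (a : ℕ → ℤ) (k : ℕ) : phi a (k * k) = 0 := by
  have h1 : Nat.sqrt (k * k) = k := Nat.sqrt_eq k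
  unfold phi rho
  rw [h1, Nat.sub_self]
  unfold clamp
  omega

theorem phi_mid (a : ℕ → ℤ) (k : ℕ) : phi a (k * k + k) = clamp k (a k) := by
  have h1 : k = Nat.sqrt (k * k + k) := Nat.eq_sqrt.2 ⟨by omega, by
    rw [sq_succ]
    omega⟩
  have h2 : rho (k * k + k) = k := by
    unfold rho
    rw [← h1, sq_succ]
    generalize k * k = q
    omega
  unfold phi
  rw [h2, ← h1]

theorem cd_stp {d : ℕ} (hd : 0 < d) (a : ℕ → ℤ) : Stp (cd d a) where
  zero := cd_lt a (by omega)
  one := cd_lt a (by omega)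
  step n := by
    by_cases h : n + 1 ≤ d
    · right
      rw [cd_lt a h, cd_lt a (by omega)]
    · obtain ⟨m, rfl⟩ : ∃ m, n = d + m := ⟨n - d, by omega⟩
      rw [cd_add, add_assoc, cd_add]
      rcases cc_step a m with h1 | h1
      · left
        omega
      · right
        omega
  unb v := by
    refine ⟨d + (2 * v) * (2 * v), ?_⟩
    rw [cd_add]
    have h1 := cc_bd a ((2 * v) * (2 * v))
    rw [phi_sq] at h1
    have h2 : 2 * v ≤ (2 * v) * (2 * v) := Nat.le_mul_self _
    have h3 : ((2 * v : ℕ) : ℤ) ≤ (((2 * v) * (2 * v) : ℕ) : ℤ) := by exact_mod_cast h2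
    omega

theorem clamp_le {r k : ℕ} (h : r ≤ k) (x y : ℤ) {N : ℕ} (h1 : |clamp k x - clamp k y| ≤ N) :
    clamp r x ≤ clamp r y + N ∧ clamp r y ≤ clamp r x + N := by
  rw [abs_le] at h1
  unfold clamp at *
  omega

/-- the embedding -/
def GG {d : ℕ} (hd : 0 < d) (a : ℕ → ℤ) : RS := ⟨gg (cd d a), (cd_stp hd a).isRS⟩

theorem GG_cont {d : ℕ} (hd : 0 < d) : Continuous (GG hd) := by
  have h1 : ∀ n, Continuous fun a : ℕ → ℤ => cc a n := by
    intro n
    have h2 : (fun a : ℕ → ℤ => cc a n) =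
        (fun x : ℤ => (((n : ℤ) + clamp (rho n) x) / 2).toNat) ∘ fun a => a (Nat.sqrt n) := rfl
    rw [h2]
    exact continuous_of_discreteTopology.comp (continuous_apply _)
  have h2 : ∀ n, Continuous fun a : ℕ → ℤ => cd d a n := by
    intro n
    by_cases h : n ≤ d
    · have h3 : (fun a : ℕ → ℤ => cd d a n) = fun _ => n := by
        funext a
        exact cd_lt a h
      rw [h3]
      exact continuous_const
    · have h3 : (fun a : ℕ → ℤ => cd d a n) = fun a => d + cc a (n - d) := by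
        funext a
        unfold cd
        rw [if_neg h]
      rw [h3]
      exact continuous_const.add (h1 _)
  have h3 : Continuous fun a : ℕ → ℤ => gg (cd d a) := by
    refine continuous_pi fun n => ?_
    have h4 : (fun a : ℕ → ℤ => gg (cd d a) n) =
        (fun p : ℕ × ℕ => if p.2 = p.1 + 1 then p.1 else 0) ∘
          fun a => (cd d a n, cd d a (n + 1)) := rfl
    rw [h4]
    exact continuous_of_discreteTopology.comp ((h2 n).prodMk (h2 (n + 1)))
  exact Continuous.subtype_mk h3 _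

theorem t_emb : S_EMB := by
  intro d hd
  refine ⟨GG hd, GG_cont hd, fun a j hj => ?_, fun a b => ?_⟩
  · change gg (cd d a) j = j
    unfold gg
    rw [cd_lt a (show j + 1 ≤ d by omega), cd_lt a hj.le, if_pos rfl]
  · have hcl : Close (GG hd a) (GG hd b) ↔
        ∃ N : ℕ, ∀ n, cd d a n ≤ cd d b n + N ∧ cd d b n ≤ cd d a n + N := by
      unfold Close
      refine exists_congr fun N => forall_congr' fun n => ?_
      have h1 : cnt (GG hd a) n = cd d a n := (cd_stp hd a).cnt_eq n
      have h2 : cnt (GG hd b) n = cd d b n := (cd_stp hd b).cnt_eq n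
      rw [h1, h2]
    rw [hcl]
    constructor
    · rintro ⟨N, hN⟩
      refine ⟨2 * N + 1, fun k => ?_⟩
      have h1 := hN (d + (k * k + k))
      rw [cd_add, cd_add] at h1
      have h2 := cc_bd a (k * k + k)
      have h3 := cc_bd b (k * k + k)
      rw [phi_mid] at h2 h3
      rw [abs_le]
      push_cast
      omega
    · rintro ⟨N, hN⟩
      refine ⟨N + 1, fun n => ?_⟩
      by_cases h : n ≤ d
      · rw [cd_lt a h, cd_lt b h]
        omega
      · obtain ⟨m, rfl⟩ : ∃ m, n = d + m := ⟨n - d, by omega⟩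
        rw [cd_add, cd_add]
        have h1 := clamp_le (rho_le m) _ _ (hN (Nat.sqrt m))
        have h2 := cc_bd a m
        have h3 := cc_bd b m
        unfold phi at h2 h3
        omega

end Pool.Agent.N711.CS
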